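import Pool.Agent.Helper362.HapH

set_option autoImplicit false
open Filter
open scoped Topology ENNReal

namespace Pool.Agent.Results.MP_510402_an.SlowGrowthNoAP

/-- The Banach-Mazur distance `d(E, ℓ₂ⁿ)`: the infimum of `‖T‖ ‖T⁻¹‖` over all linear
homeomorphisms `T` of `E` onto the Euclidean space of dimension `n`. -/
noncomputable def distEucl (𝕜 : Type) [RCLike 𝕜] (E : Type) [NormedAddCommGroup E]
    [NormedSpace 𝕜 E] (n : ℕ) : ℝ≥0∞ :=
  ⨅ T : E ≃L[𝕜] EuclideanSpace 𝕜 (Fin n),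
    ENNReal.ofReal (‖(T : E →L[𝕜] EuclideanSpace 𝕜 (Fin n))‖ *
      ‖(T.symm : EuclideanSpace 𝕜 (Fin n) →L[𝕜] E)‖)

/-- `d_n(X)`: the supremum of `d(E, ℓ₂ⁿ)` over all subspaces `E` of `X` of dimension `n`. -/
noncomputable def dn (𝕜 : Type) [RCLike 𝕜] (X : Type) [NormedAddCommGroup X]
    [NormedSpace 𝕜 X] (n : ℕ) : ℝ≥0∞ :=
  ⨆ E : {E : Submodule 𝕜 X // FiniteDimensional 𝕜 E ∧ Module.finrank 𝕜 E = n},
    distEucl 𝕜 E.1 n

/-- The approximation property. -/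
def HasAP (𝕜 : Type) [RCLike 𝕜] (Y : Type) [NormedAddCommGroup Y] [NormedSpace 𝕜 Y] : Prop :=
  ∀ K : Set Y, IsCompact K → ∀ ε : ℝ, 0 < ε →
    ∃ T : Y →L[𝕜] Y, FiniteDimensional 𝕜 (LinearMap.range (T : Y →ₗ[𝕜] Y)) ∧
      ∀ x ∈ K, ‖T x - x‖ < ε

section aux

variable (𝕜 : Type) [RCLike 𝕜]

lemma hasAP_of_finite (X : Type) [NormedAddCommGroup X] [NormedSpace 𝕜 X]
    [FiniteDimensional 𝕜 X] : HasAP 𝕜 X := by
  intro K _ ε hε
  refine ⟨ContinuousLinearMap.id 𝕜 X, inferInstance, fun x _ => ?_⟩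
  rw [ContinuousLinearMap.id_apply, sub_self, norm_zero]
  exact hε

lemma hasAP_of_top (X : Type) [NormedAddCommGroup X] [NormedSpace 𝕜 X]
    (h : HasAP 𝕜 (⊤ : Submodule 𝕜 X)) : HasAP 𝕜 X := by
  intro K hK ε hε
  let j : X →L[𝕜] (⊤ : Submodule 𝕜 X) :=
    (ContinuousLinearMap.id 𝕜 X).codRestrict ⊤ (fun _ => Submodule.mem_top)
  obtain ⟨T, hT, hTK⟩ := h (j '' K) (hK.image j.continuous) ε hε
  refine ⟨(Submodule.subtypeL ⊤).comp (T.comp j), ?_, fun x hx => ?_⟩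
  · have h1 : LinearMap.range (((Submodule.subtypeL (⊤ : Submodule 𝕜 X)).comp (T.comp j) :
        X →L[𝕜] X) : X →ₗ[𝕜] X) ≤
        (LinearMap.range (T : (⊤ : Submodule 𝕜 X) →ₗ[𝕜] (⊤ : Submodule 𝕜 X))).map
          (⊤ : Submodule 𝕜 X).subtype := by
      rintro y ⟨x, rfl⟩
      exact ⟨T (j x), ⟨j x, rfl⟩, rfl⟩
    exact Submodule.finiteDimensional_of_le h1
  · have h1 := hTK (j x) ⟨x, hx, rfl⟩
    exact h1

lemma dn_le (n : ℕ) (hn : 1 ≤ n) (k : ℕ) (hk : n ≤ 2 ^ (4 ^ (k + 1))) :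
    dn 𝕜 (Helper362.Hap.Data.X 𝕜 Helper362.Hap.dat) n ≤ ENNReal.ofReal (5 * 2 ^ k) := by
  refine iSup_le (fun W => ?_)
  obtain ⟨T, h1, h2⟩ := Helper362.Hap.dat.small 𝕜 n hn k hk W.1 W.2.2
  refine iInf_le_of_le T (ENNReal.ofReal_le_ofReal ?_)
  calc _ ≤ 1 * (5 * (2 : ℝ) ^ k) := mul_le_mul h1 h2 (norm_nonneg _) zero_le_one
    _ = _ := one_mul _

lemma exists_k (n : ℕ) (hn : 2 ≤ n) : ∃ k : ℕ, n ≤ 2 ^ (4 ^ (k + 1)) ∧
    (2 : ℝ) ^ k * √(Real.log 2) ≤ √(Real.log n) := by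
  classical
  have hex : ∃ k : ℕ, n ≤ 2 ^ (4 ^ (k + 1)) := by
    refine ⟨n, ?_⟩
    have h1 : n < 2 ^ n := Nat.lt_two_pow_self
    have h2 : n < 4 ^ n := Nat.lt_pow_self (by norm_num)
    exact h1.le.trans (Nat.pow_le_pow_right (by norm_num)
      (h2.le.trans (Nat.pow_le_pow_right (by norm_num) (by omega))))
  have hn0 : (0 : ℝ) < n := by exact_mod_cast (by omega : 0 < n)
  refine ⟨Nat.find hex, Nat.find_spec hex, ?_⟩
  cases h : Nat.find hex with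
  | zero =>
    rw [pow_zero, one_mul]
    apply Real.sqrt_le_sqrt
    exact Real.log_le_log (by norm_num) (by exact_mod_cast hn)
  | succ k =>
    have h1 : ¬ n ≤ 2 ^ (4 ^ (k + 1)) := Nat.find_min hex (by omega)
    have h2 : (2 : ℝ) ^ (4 ^ (k + 1)) ≤ n := by exact_mod_cast (not_le.mp h1).le
    have h3 : (4 : ℝ) ^ (k + 1) * Real.log 2 ≤ Real.log n := by
      have h4 := Real.log_le_log (by positivity) h2
      rw [Real.log_pow] at h4
      push_cast at h4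
      exact h4
    have h5 : (2 : ℝ) ^ (k + 1) * √(Real.log 2) = √((4 : ℝ) ^ (k + 1) * Real.log 2) := by
      rw [Real.sqrt_mul (by positivity)]
      congr 1
      rw [show (4 : ℝ) = 2 ^ 2 by norm_num, ← pow_mul, mul_comm, pow_mul,
        Real.sqrt_sq (by positivity)]
    rw [h5]
    exact Real.sqrt_le_sqrt h3

lemma dn_growth (n : ℕ) (hn : 2 ≤ n) :
    dn 𝕜 (Helper362.Hap.Data.X 𝕜 Helper362.Hap.dat) n ≤
      ENNReal.ofReal ((5 / √(Real.log 2)) * √(Real.log n)) := by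
  obtain ⟨k, h1, h2⟩ := exists_k n hn
  refine (dn_le 𝕜 n (by omega) k h1).trans (ENNReal.ofReal_le_ofReal ?_)
  have h3 : 0 < √(Real.log 2) := Real.sqrt_pos.mpr (Real.log_pos (by norm_num))
  rw [div_mul_eq_mul_div, le_div_iff₀ h3]
  linarith

lemma tendsto_ratio (f : ℕ → ℝ≥0∞) (C : ℝ)
    (h : ∀ n : ℕ, 2 ≤ n → f n ≤ ENNReal.ofReal (C * √(Real.log n))) :
    Tendsto (fun n : ℕ => f n / ENNReal.ofReal (Real.log n)) atTop (𝓝 0) := by
  have hlog : Tendsto (fun n : ℕ => √(Real.log n)) atTop atTop :=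
    Real.tendsto_sqrt_atTop.comp (Real.tendsto_log_atTop.comp tendsto_natCast_atTop_atTop)
  have h1 : Tendsto (fun n : ℕ => ENNReal.ofReal (C / √(Real.log n))) atTop (𝓝 0) := by
    have h2 : Tendsto (fun n : ℕ => C / √(Real.log n)) atTop (𝓝 0) :=
      hlog.const_div_atTop C
    have h3 := (ENNReal.continuous_ofReal.tendsto 0).comp h2
    rw [ENNReal.ofReal_zero] at h3
    exact h3
  refine tendsto_of_tendsto_of_tendsto_of_le_of_le' tendsto_const_nhds h1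
    (Eventually.of_forall (fun n => bot_le)) ?_
  filter_upwards [eventually_ge_atTop 2] with n hn
  have hpos : 0 < Real.log n := Real.log_pos (by exact_mod_cast (by omega : 1 < n))
  calc f n / ENNReal.ofReal (Real.log n)
      ≤ ENNReal.ofReal (C * √(Real.log n)) / ENNReal.ofReal (Real.log n) :=
        ENNReal.div_le_div_right (h n hn) _
    _ = ENNReal.ofReal (C / √(Real.log n)) := by
        rw [← ENNReal.ofReal_div_of_pos hpos]
        congr 1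
        have h4 : √(Real.log n) ≠ 0 := (Real.sqrt_pos.mpr hpos).ne'
        have h5 : Real.log n = √(Real.log n) * √(Real.log n) :=
          (Real.mul_self_sqrt hpos.le).symm
        conv_lhs => rw [h5]
        rw [Real.sqrt_mul_self (Real.sqrt_nonneg _)]
        field_simp

end aux

/-- A Banach space `X` with `d_n(X) = O(√ln n)`, hence `d_n(X) = o(ln n)`, that has a closed
subspace without the approximation property. -/
theorem result (𝕜 : Type) [RCLike 𝕜] :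
    ∃ (X : Type) (_ : NormedAddCommGroup X) (_ : NormedSpace 𝕜 X),
      CompleteSpace X ∧ ¬ FiniteDimensional 𝕜 X ∧
      (∃ C : ℝ, ∀ n : ℕ, 2 ≤ n → dn 𝕜 X n ≤ ENNReal.ofReal (C * √(Real.log n))) ∧
      Tendsto (fun n : ℕ => dn 𝕜 X n / ENNReal.ofReal (Real.log n)) atTop (𝓝 0) ∧
      ∃ Y : Submodule 𝕜 X, IsClosed (Y : Set X) ∧ ¬ HasAP 𝕜 Y := by
  have hnot : ¬ HasAP 𝕜 (Helper362.Hap.Data.X 𝕜 Helper362.Hap.dat) := Helper362.Hap.dat.not_AP 𝕜
  refine ⟨Helper362.Hap.Data.X 𝕜 Helper362.Hap.dat, inferInstance, inferInstance, inferInstance,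
    fun hfin => hnot (hasAP_of_finite 𝕜 _), ⟨_, dn_growth 𝕜⟩, tendsto_ratio _ _ (dn_growth 𝕜),
    ⊤, isClosed_univ, fun h => hnot (hasAP_of_top 𝕜 _ h)⟩

end Pool.Agent.Results.MP_510402_an.SlowGrowthNoAP
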